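import Mathlib
import Pool.Agent.H526Z.Schur

set_option autoImplicit false

namespace Pool.Agent.Results.MP_6a54e9_co.ACounterexample

open Classical in
/-- Schur's conjectured lower bound on the number of shared vertices is false
(it fails for `d = 12`, `k = m = 8`). -/
theorem result :
    ¬ ∀ (d k m : ℕ), 2 ≤ d → m ≤ k → k ≤ d →
      ∀ S₁ S₂ : Finset (EuclideanSpace ℝ (Fin d)),
        S₁.card = k + 1 → S₂.card = m + 1 →
        (∀ x ∈ S₁, ∀ y ∈ S₁, x ≠ y → dist x y = 1) →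
        (∀ x ∈ S₂, ∀ y ∈ S₂, x ≠ y → dist x y = 1) →
        (∀ x ∈ S₁ ∪ S₂, ∀ y ∈ S₁ ∪ S₂, dist x y ≤ 1) →
        max 0 ((k : ℤ) + 2 * (m : ℤ) - 2 * (d : ℤ) + 1) ≤ ((S₁ ∩ S₂).card : ℤ) := by
  intro h
  obtain ⟨S₁, S₂, h1, h2, h3, h4, h5, h6⟩ := Pool.Agent.H526Z.Schur.exists_pair
  have hu : ∀ x ∈ S₁ ∪ S₂, ∀ y ∈ S₁ ∪ S₂, dist x y ≤ 1 := by
    intro x hx y hy
    by_cases hxy : x = y
    · rw [hxy, dist_self]; norm_num
    rcases Finset.mem_union.mp hx with hx | hx <;> rcases Finset.mem_union.mp hy with hy | hy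
    · exact (h3 x hx y hy hxy).le
    · exact h5 x hx y hy
    · rw [dist_comm]; exact h5 y hy x hx
    · exact (h4 x hx y hy hxy).le
  have key := h 12 8 8 (by norm_num) (by norm_num) (by norm_num) S₁ S₂ h1 h2 h3 h4 hu
  have he : S₁ ∩ S₂ = ∅ := by
    ext x
    simp only [Finset.mem_inter, Finset.notMem_empty, iff_false, not_and]
    exact h6 x
  rw [he] at key
  norm_num at key

end Pool.Agent.Results.MP_6a54e9_co.ACounterexample
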